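import Pool.Agent.H86.DB.Targets

/-!
# Row LALL of the board `db_modules`: the linear bound
-/

set_option autoImplicit false

open Module MvPolynomial

namespace Pool.Agent.H60.DB

open Pool.Agent.H12.Defect Pool.Agent.H15.Defect Pool.Agent.H15.ER Pool.Agent.H86.DB
open Pool.Agent.H14.RF hiding tr

universe u

/-- The local case. -/
theorem lall_local (hL : T_L1.{u}) {k : Type u} [Field k] [IsAlgClosed k] {m : ℕ} {A : Type u}
    [CommRing A] [Algebra k A] (g : MvPolynomial (Fin m) k →ₐ[k] A)
    (hg : Function.Surjective g) (α : A →ₐ[k] k) (c : ℕ) (hc : RingHom.ker α ^ c = ⊥) :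
    Dle k A (m.factorial * finrank k A) := by
  let τ : MvPolynomial (Fin m) k →ₐ[k] MvPolynomial (Fin m) k :=
    aeval (fun j => X j - C (α (g (X j))))
  let τ' : MvPolynomial (Fin m) k →ₐ[k] MvPolynomial (Fin m) k :=
    aeval (fun j => X j + C (α (g (X j))))
  have hτ : ∀ p, τ (τ' p) = p := by
    intro p
    have h1 : τ.comp τ' = AlgHom.id k _ := by
      refine MvPolynomial.algHom_ext fun j => ?_
      rw [AlgHom.comp_apply, AlgHom.id_apply]
      simp only [τ, τ', aeval_X, map_add, MvPolynomial.algHom_C, MvPolynomial.algebraMap_eq]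
      ring
    have h2 := congrArg (fun f : MvPolynomial (Fin m) k →ₐ[k] MvPolynomial (Fin m) k => f p) h1
    simpa using h2
  let g' : MvPolynomial (Fin m) k →ₐ[k] A := g.comp τ
  have hg' : Function.Surjective g' := by
    intro a
    obtain ⟨p, rfl⟩ := hg a
    exact ⟨τ' p, by show g (τ (τ' p)) = g p; rw [hτ]⟩
  have hX : ∀ j, α (g' (X j)) = 0 := by
    intro j
    show α (g (τ (X j))) = 0
    simp only [τ, aeval_X, map_sub]
    have h1 : g (C (α (g (X j)))) = algebraMap k A (α (g (X j))) := by
      rw [← MvPolynomial.algebraMap_eq, AlgHom.commutes]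
    rw [h1, AlgHom.commutes]
    simp
  have hAt : AtO (RingHom.ker g') := by
    refine ⟨c, fun p hp => ?_⟩
    rw [RingHom.mem_ker]
    have h1 : Ideal.map g' (Ideal.span (Set.range (X : Fin m → MvPolynomial (Fin m) k))) ≤
        RingHom.ker α := by
      rw [Ideal.map_le_iff_le_comap, Ideal.span_le]
      rintro _ ⟨j, rfl⟩
      exact hX j
    have h2 := Ideal.mem_map_of_mem g' hp
    rw [Ideal.map_pow] at h2
    have h3 := Ideal.pow_right_mono h1 c h2
    rw [hc] at h3
    exact (Submodule.mem_bot _).1 h3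
  obtain ⟨e, N, he, h⟩ := hL k m (RingHom.ker g') hAt
  have h0 := (h 0).1
  rw [zero_add, zero_add, pow_one, Nat.choose_self, mul_one] at h0
  have E : (MvPolynomial (Fin m) k ⧸ RingHom.ker g') ≃ₐ[k] A :=
    Ideal.quotientKerAlgEquivOfSurjective hg'
  rw [E.toLinearEquiv.finrank_eq] at he
  exact (h0.of_equiv E).mono he

theorem pf_LALL (hL : T_L1.{u}) : T_LALL.{u} := by
  suffices H : ∀ (k : Type u) [Field k] [IsAlgClosed k] (m n : ℕ) (A : Type u) [CommRing A]
      [Algebra k A] [Module.Finite k A] (g : MvPolynomial (Fin m) k →ₐ[k] A),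
      Function.Surjective g → finrank k A = n → Dle k A (m.factorial * finrank k A) by
    intro k _ _ m A _ _ _ g hg
    exact H k m _ A g hg rfl
  intro k _ _ m n
  induction n using Nat.strong_induction_on with
  | _ n ih =>
    intro A _ _ _ g hg hn
    rcases subsingleton_or_nontrivial A with hA | hA
    · exact dle_subsingleton.mono (Nat.zero_le _)
    obtain ⟨α⟩ := exists_point (k := k) (A := A)
    rcases local_or_split α with ⟨c, hc⟩ | ⟨A₁, A₂, _, _, _, _, _, _, _, _, ⟨e⟩⟩
    · exact lall_local hL g hg α c hc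
    · have hfr : finrank k A = finrank k A₁ + finrank k A₂ := by
        rw [← Module.finrank_prod]
        exact LinearEquiv.finrank_eq e.toLinearEquiv
      have hp1 := Module.finrank_pos (R := k) (M := A₁)
      have hp2 := Module.finrank_pos (R := k) (M := A₂)
      have s1 : Function.Surjective (((AlgHom.fst k A₁ A₂).comp e.toAlgHom).comp g) := by
        intro a
        obtain ⟨p, hp⟩ := hg (e.symm (a, 0))
        refine ⟨p, ?_⟩
        simp [hp]
      have s2 : Function.Surjective (((AlgHom.snd k A₁ A₂).comp e.toAlgHom).comp g) := by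
        intro a
        obtain ⟨p, hp⟩ := hg (e.symm (0, a))
        refine ⟨p, ?_⟩
        simp [hp]
      have h1 := ih _ (by omega) A₁ _ s1 rfl
      have h2 := ih _ (by omega) A₂ _ s2 rfl
      rw [hfr, mul_add]
      exact (h1.prod h2).of_equiv e.symm

end Pool.Agent.H60.DB
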